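import Pool.Agent.Y444.RP.Stm

/-!
# Limits in the tree of reverse well-ordered sets of reals (helper21, block LIM for helper444)
-/

set_option autoImplicit false

open Set

namespace Pool.Agent.Y21.RP

open Pool.Agent.Y444.RP

theorem isLeast_f (A : RW) : IsLeast A.1 A.f := by
  obtain ⟨m, hm⟩ := A.2.2
  have : A.f = m := hm.csInf_eq
  rw [this]; exact hm

theorem f_eq (A : RW) {m : ℝ} (hm : IsLeast A.1 m) : A.f = m := hm.csInf_eq

theorem le_f {A B : RW} (h : A.le B) : B.f ≤ A.f := by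
  have h1 : A.f ∈ A.1 := (isLeast_f A).1
  rw [h] at h1
  exact (isLeast_f B).2 h1.1

theorem le_rfl' (A : RW) : A.le A := by
  unfold RW.le
  ext x
  constructor
  · intro hx; exact ⟨hx, (isLeast_f A).2 hx⟩
  · intro hx; exact hx.1

theorem le_tr {A B C : RW} (h1 : A.le B) (h2 : B.le C) : A.le C := by
  have hf := le_f h1
  unfold RW.le at *
  ext x
  constructor
  · intro hx
    rw [h1] at hx
    obtain ⟨hx1, hx2⟩ := hx
    rw [h2] at hx1
    exact ⟨hx1.1, hx2⟩
  · intro hx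
    rw [h1]
    refine ⟨?_, hx.2⟩
    rw [h2]
    exact ⟨hx.1, le_trans hf hx.2⟩

theorem le_eq {A B : RW} (h1 : A.le B) (h2 : A.f ≤ B.f) : A = B := by
  apply Subtype.ext
  unfold RW.le at h1
  rw [h1]
  ext x
  constructor
  · intro hx; exact hx.1
  · intro hx; exact ⟨hx, le_trans h2 ((isLeast_f B).2 hx)⟩

theorem succ (A : RW) (b : ℝ) (hb : b < A.f) :
    ∃ B : RW, A.le B ∧ B.1 = insert b A.1 ∧ B.f = b := by
  have hA := isLeast_f A
  have hleast : IsLeast (insert b A.1) b := by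
    refine ⟨mem_insert _ _, ?_⟩
    rintro x (rfl | hx)
    · exact _root_.le_rfl
    · exact hb.le.trans (hA.2 hx)
  have hgr : ∀ S ⊆ insert b A.1, S.Nonempty → ∃ m, IsGreatest S m := by
    intro S hS hne
    by_cases h : (S ∩ A.1).Nonempty
    · obtain ⟨m, hm1, hm2⟩ := A.2.1 (S ∩ A.1) inter_subset_right h
      refine ⟨m, hm1.1, ?_⟩
      intro x hx
      rcases hS hx with rfl | hx'
      · exact hb.le.trans (hA.2 hm1.2)
      · exact hm2 ⟨hx, hx'⟩
    · obtain ⟨x, hx⟩ := hne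
      have hxb : ∀ y ∈ S, y = b := by
        intro y hy
        rcases hS hy with h' | h'
        · exact h'
        · exact absurd ⟨y, hy, h'⟩ h
      refine ⟨x, hx, ?_⟩
      intro y hy
      rw [hxb y hy, hxb x hx]
  let B : RW := ⟨insert b A.1, hgr, b, hleast⟩
  refine ⟨B, ?_, rfl, hleast.csInf_eq⟩
  unfold RW.le
  ext x
  constructor
  · intro hx; exact ⟨mem_insert_of_mem _ hx, hA.2 hx⟩
  · rintro ⟨rfl | hx, hx2⟩
    · exact absurd hx2 (not_le.mpr hb)
    · exact hx

theorem lim (A : ℕ → RW) (c : ℝ) (hA : ∀ n, (A n).le (A (n + 1))) (hc : ∀ n, c ≤ (A n).f) :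
    ∃ B : RW, (∀ n, (A n).le B) ∧ c ≤ B.f := by
  have hmono : ∀ m k, (A m).le (A (m + k)) := by
    intro m k
    induction k with
    | zero => exact le_rfl' _
    | succ k ih => exact le_tr ih (hA (m + k))
  have hle : ∀ m n, m ≤ n → (A m).le (A n) := by
    intro m n h
    obtain ⟨k, rfl⟩ := Nat.exists_eq_add_of_le h
    exact hmono m k
  have hlen : ∀ n, IsLeast (A n).1 (A n).f := fun n => isLeast_f _
  set s : ℝ := ⨅ n, (A n).f with hs
  have hbdd : BddBelow (range fun n => (A n).f) := ⟨c, by rintro _ ⟨n, rfl⟩; exact hc n⟩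
  have hsle : ∀ n, s ≤ (A n).f := fun n => ciInf_le hbdd n
  have hcs : c ≤ s := le_ciInf hc
  -- the union
  set U : Set ℝ := insert s (⋃ n, (A n).1) with hU
  have hmem : ∀ n x, x ∈ (⋃ n, (A n).1) → (A n).f ≤ x → x ∈ (A n).1 := by
    intro n x hx hfx
    obtain ⟨m, hm⟩ := mem_iUnion.mp hx
    rcases le_total m n with h | h
    · have := hle m n h
      unfold RW.le at this
      rw [this] at hm
      exact hm.1
    · have := hle n m h
      unfold RW.le at this
      rw [this]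
      exact ⟨hm, hfx⟩
  have hleU : ∀ n x, x ∈ U → (A n).f ≤ x → x ∈ (A n).1 := by
    intro n x hx hfx
    rcases hx with rfl | hx
    · have : s = (A n).f := le_antisymm (hsle n) hfx
      rw [this]; exact (hlen n).1
    · exact hmem n x hx hfx
  have hleast : IsLeast U s := by
    refine ⟨mem_insert _ _, ?_⟩
    rintro x (rfl | hx)
    · exact _root_.le_rfl
    · obtain ⟨m, hm⟩ := mem_iUnion.mp hx
      exact (hsle m).trans ((hlen m).2 hm)
  have hgr : ∀ S ⊆ U, S.Nonempty → ∃ m, IsGreatest S m := by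
    intro S hS hne
    by_cases h : ∃ n, (S ∩ (A n).1).Nonempty
    · obtain ⟨n, hn⟩ := h
      obtain ⟨m, hm1, hm2⟩ := (A n).2.1 (S ∩ (A n).1) inter_subset_right hn
      refine ⟨m, hm1.1, ?_⟩
      intro x hx
      by_cases hx' : (A n).f ≤ x
      · exact hm2 ⟨hx, hleU n x (hS hx) hx'⟩
      · exact (not_le.mp hx').le.trans ((hlen n).2 hm1.2)
    · obtain ⟨x, hx⟩ := hne
      have hxb : ∀ y ∈ S, y = s := by
        intro y hy
        rcases hS hy with h' | h'
        · exact h'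
        · obtain ⟨m, hm⟩ := mem_iUnion.mp h'
          exact absurd ⟨m, y, hy, hm⟩ h
      refine ⟨x, hx, ?_⟩
      intro y hy
      rw [hxb y hy, hxb x hx]
  refine ⟨⟨U, hgr, s, hleast⟩, ?_, ?_⟩
  · intro n
    unfold RW.le
    ext x
    constructor
    · intro hx
      exact ⟨mem_insert_of_mem _ (mem_iUnion.mpr ⟨n, hx⟩), (hlen n).2 hx⟩
    · rintro ⟨hx1, hx2⟩
      exact hleU n x hx1 hx2
  · have : RW.f ⟨U, hgr, s, hleast⟩ = s := hleast.csInf_eq
    rw [this]; exact hcs

/-- Block LIM. -/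
theorem t : Pool.Agent.Y444.RP.LimStm :=
  ⟨fun _ _ _ h1 h2 => le_tr h1 h2, le_rfl', fun _ _ h => le_f h, fun _ _ h1 h2 => le_eq h1 h2,
    succ, lim⟩
end Pool.Agent.Y21.RP
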